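import Pool.Agent.Y8.ED.Defs
import Pool.Agent.Y284.EJ.W7

/-!
# Project ED: weak-strong uniqueness with damping (after Pool.Agent.Y284.EJ.W7)
-/

open Set Filter Topology MeasureTheory Metric

set_option autoImplicit false

namespace Pool.Agent.Y889.ED

open Pool.Agent.Y5 (E3)
open Pool.Agent.Y303.SK
open Pool.Agent.Y303.EJ
open Pool.Agent.Y8.DI
open Pool.Agent.Y8.ED
open Pool.Agent.Y500.SK (inner_toLp ipr_comm lap dirf_eq lap_memLp dvg_zero cpt_of_zero)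
open Pool.Agent.Y284.EJ (inner_int ipr_self_nonneg dirf_self_nonneg gg_nonneg ipr_sub_self
  ipr_sub_le ae_of_ipr ipr_congr_left inH_cs)

theorem dsp_nonneg {ι : Type} {e : ι → E3 → E3} {lam : ι → ℝ} (h : ∀ i, 0 ≤ lam i)
    (v : E3 → E3) : 0 ≤ dsp e lam v :=
  tsum_nonneg fun i => mul_nonneg (h i) (sq_nonneg _)

theorem t_W7D (h3 : S_W3) (h5 : S_W5D) (h6 : S_W6) (hg : S_GR) (hwc : S_WC) : S_W7D := by
  intro Ω ν ι e lam T T' u v G hΩ hb hν hS hT' hTT hL h0 t₁ ht₁ ht₁T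
  have hco := hS.co
  have hsk := skew0 hS.sys
  have hT : 0 < T := hT'.trans_le hTT
  have hsub : ∀ τ ∈ Icc 0 t₁, τ ∈ Icc 0 T' ∧ τ ∈ Ico 0 T := fun τ hτ =>
    ⟨⟨hτ.1, hτ.2.trans ht₁.2⟩, ⟨hτ.1, hτ.2.trans_lt ht₁T⟩⟩
  have hu2 : ∀ τ ∈ Icc 0 t₁, MemLp (u τ) 2 volume := fun τ hτ => (hS.sol.inH τ (hsub τ hτ).2).1
  have hv2 : ∀ τ ∈ Icc 0 t₁, MemLp (v τ) 2 volume := fun τ hτ => (hL.inH τ (hsub τ hτ).1).1
  have hz : (0 : ℝ) ∈ Icc 0 t₁ := ⟨le_rfl, ht₁.1⟩
  -- energy of the strong solution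
  obtain ⟨E, hE⟩ : ∃ E : ℝ → ℝ, E = fun τ => ipr (u τ) (u τ) := ⟨_, rfl⟩
  obtain ⟨d, hd⟩ : ∃ d : ℝ → ℝ, d = fun τ => dirf (u τ) (u τ) := ⟨_, rfl⟩
  obtain ⟨du, hdu⟩ : ∃ du : ℝ → ℝ, du = fun τ => dsp e lam (u τ) := ⟨_, rfl⟩
  obtain ⟨dv, hdv⟩ : ∃ dv : ℝ → ℝ, dv = fun τ => dsp e lam (v τ) := ⟨_, rfl⟩
  have hd0 : ∀ τ, 0 ≤ d τ := fun τ => by rw [hd]; exact dirf_self_nonneg _
  have hdu0 : ∀ τ, 0 ≤ du τ := fun τ => by rw [hdu]; exact dsp_nonneg hS.sys.nonneg _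
  have hdv0 : ∀ τ, 0 ≤ dv τ := fun τ => by rw [hdv]; exact dsp_nonneg hS.sys.nonneg _
  have hEc : ContinuousOn E (Ico 0 T) := fun τ hτ => by
    rw [hE]; exact (hS.en τ hτ).2.continuousWithinAt
  have hEd : ∀ τ ∈ Ioo 0 T, HasDerivAt E (-(2 * (ν * d τ + du τ))) τ := fun τ hτ => by
    have := (hS.en τ ⟨hτ.1.le, hτ.2⟩).2.hasDerivAt (Ico_mem_nhds hτ.1 hτ.2)
    rw [hE, hd, hdu]
    exact this
  have hdI : IntervalIntegrable d volume 0 t₁ := by
    rw [intervalIntegrable_iff_integrableOn_Ioo_of_le ht₁.1, hd]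
    exact hS.gint.mono_set (Ioo_subset_Ioo_right ht₁T.le)
  have hduI : IntervalIntegrable du volume 0 t₁ := by
    rw [intervalIntegrable_iff_integrableOn_Ioo_of_le ht₁.1, hdu]
    exact hS.dint.mono_set (Ioo_subset_Ioo_right ht₁T.le)
  have hdvI : IntervalIntegrable dv volume 0 t₁ := by
    rw [intervalIntegrable_iff_integrableOn_Ioo_of_le ht₁.1, hdv]
    exact hL.dint.mono_set (Ioo_subset_Ioo_right ht₁.2)
  have hEeq : ∀ τ ∈ Icc 0 t₁, E τ = E 0 - ∫ r in (0 : ℝ)..τ, 2 * (ν * d r + du r) := by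
    intro τ hτ
    have hsubτ : uIcc 0 τ ⊆ uIcc 0 t₁ := by
      rw [uIcc_of_le hτ.1, uIcc_of_le ht₁.1]; exact Icc_subset_Icc_right hτ.2
    have h3 := intervalIntegral.integral_eq_sub_of_hasDerivAt_of_le (f := E)
      (f' := fun τ => -(2 * (ν * d τ + du τ))) hτ.1
      (hEc.mono fun r hr => (hsub r ⟨hr.1, hr.2.trans hτ.2⟩).2)
      (fun x hx => hEd x ⟨hx.1, hx.2.trans_le (hτ.2.trans ht₁T.le)⟩)
      (((((hdI.mono_set hsubτ).const_mul ν).add (hduI.mono_set hsubτ)).const_mul 2).neg)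
    rw [intervalIntegral.integral_neg] at h3
    linarith
  -- dissipation of the weak solution
  have hGi : IntervalIntegrable (fun τ => gg (G τ)) volume 0 t₁ := by
    rw [intervalIntegrable_iff_integrableOn_Ioo_of_le ht₁.1]
    exact hL.diss.mono_set (Ioo_subset_Ioo_right ht₁.2)
  -- mixed term
  have h5' := fun τ (hτ : τ ∈ Icc 0 t₁) =>
    h5 Ω ν ι e lam T T' u v G hΩ hb hν hS hT' hTT hL τ (hsub τ hτ).1 (hsub τ hτ).2.2
  obtain ⟨m, hm⟩ : ∃ m : ℝ → ℝ, m = fun τ => 2 * ν * gf (G τ) (u τ) + ipr (conv (u τ)) (v τ) +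
    av (v τ) (G τ) (u τ) := ⟨_, rfl⟩
  have hmI : IntervalIntegrable m volume 0 t₁ := by
    rw [hm]; exact (h5' t₁ ⟨ht₁.1, le_rfl⟩).1
  have hmeq : ∀ τ ∈ Icc 0 t₁, ipr (u 0) (v 0) - (∫ r in (0 : ℝ)..τ, m r) -
      (∫ r in (0 : ℝ)..τ, (du r + dv r)) ≤ ipr (u τ) (v τ) := by
    intro τ hτ
    rw [hm, hdu, hdv]; exact (h5' τ hτ).2
  -- initial values
  have hv0 : ipr (v 0) (v 0) = E 0 := by
    rw [hE]
    simp only
    rw [ipr_congr_left h0, ipr_comm, ipr_congr_left h0]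
  have huv0 : ipr (u 0) (v 0) = E 0 := by
    rw [hE]
    simp only
    rw [ipr_comm, ipr_congr_left h0]
  -- the difference
  obtain ⟨g, hgd⟩ : ∃ g : ℝ → ℝ, g = fun τ => ipr (fun x => v τ x - u τ x)
    (fun x => v τ x - u τ x) := ⟨_, rfl⟩
  have hg0 : ∀ τ, 0 ≤ g τ := fun τ => by rw [hgd]; exact ipr_self_nonneg _
  have hgeq : ∀ τ ∈ Icc 0 t₁, g τ = ipr (v τ) (v τ) - 2 * ipr (u τ) (v τ) + E τ := fun τ hτ => by
    rw [hgd, hE]; exact ipr_sub_self (hv2 τ hτ) (hu2 τ hτ)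
  have hve : ∀ τ ∈ Icc 0 t₁, ipr (v τ) (v τ) ≤
      E 0 - ∫ r in (0 : ℝ)..τ, 2 * (ν * gg (G r) + dv r) := by
    intro τ hτ
    have := hL.energy τ (hsub τ hτ).1
    rw [intervalIntegral.integral_const_mul, hdv]
    linarith
  have hve1 : ∀ τ ∈ Icc 0 t₁, ipr (v τ) (v τ) ≤ E 0 := by
    intro τ hτ
    have h1 := hve τ hτ
    have h2 : 0 ≤ ∫ r in (0 : ℝ)..τ, 2 * (ν * gg (G r) + dv r) :=
      intervalIntegral.integral_nonneg hτ.1 fun r _ => by
        have := gg_nonneg (G r)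
        have := hdv0 r
        positivity
    linarith
  have hue1 : ∀ τ ∈ Icc 0 t₁, E τ ≤ E 0 := by
    intro τ hτ
    have h1 := hEeq τ hτ
    have h2 : 0 ≤ ∫ r in (0 : ℝ)..τ, 2 * (ν * d r + du r) :=
      intervalIntegral.integral_nonneg hτ.1 fun r _ => by
        have := hd0 r
        have := hdu0 r
        positivity
    linarith
  have hgM : ∀ τ ∈ Icc 0 t₁, g τ ≤ 4 * E 0 := by
    intro τ hτ
    have h1 := ipr_sub_le (hv2 τ hτ) (hu2 τ hτ)
    have h2 := hve1 τ hτ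
    have h3 := hue1 τ hτ
    rw [hgd]
    simp only
    have h4 : ipr (u τ) (u τ) = E τ := by rw [hE]
    linarith
  -- measurability
  have hcont : ∀ i, ContinuousOn (fun τ => ipr (v τ) (e i)) (Icc 0 t₁) := fun i =>
    (hL.cont (e i) (inH_cs (hsk.field i))).mono fun τ hτ => (hsub τ hτ).1
  have hcontu : ∀ i, ContinuousOn (fun τ => ipr (u τ) (e i)) (Icc 0 t₁) := fun i τ hτ =>
    ((hS.sol.eqn i τ (hsub τ hτ).2).continuousWithinAt).mono fun r hr => (hsub r hr).2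
  have hvm : AEStronglyMeasurable (fun τ => ipr (v τ) (v τ)) (volume.restrict (Icc 0 t₁)) := by
    have hP := (hwc Ω ι e id (fun _ => 0) hΩ hb hsk hS.co).1
    refine aestronglyMeasurable_of_tendsto_ae (atTop : Filter (Finset ι))
      (f := fun F τ => ∑ i ∈ F, ipr (v τ) (e i) ^ 2) (fun F => ?_) ?_
    · refine ContinuousOn.aestronglyMeasurable ?_ measurableSet_Icc
      exact continuousOn_finsetSum _ fun i _ => (hcont i).pow 2
    · rw [ae_restrict_iff' measurableSet_Icc]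
      refine Eventually.of_forall fun τ hτ => ?_
      obtain ⟨h1, h2⟩ := hP (v τ) (hL.inH τ (hsub τ hτ).1)
      rw [h2]
      exact h1.hasSum
  have huvm : AEStronglyMeasurable (fun τ => ipr (u τ) (v τ)) (volume.restrict (Icc 0 t₁)) := by
    refine aestronglyMeasurable_of_tendsto_ae (atTop : Filter (Finset ι))
      (f := fun F τ => ∑ i ∈ F, ipr (u τ) (e i) * ipr (v τ) (e i)) (fun F => ?_) ?_
    · refine ContinuousOn.aestronglyMeasurable ?_ measurableSet_Icc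
      exact continuousOn_finsetSum _ fun i _ => (hcontu i).mul (hcont i)
    · rw [ae_restrict_iff' measurableSet_Icc]
      refine Eventually.of_forall fun τ hτ => ?_
      exact (h3 Ω ι e id (fun _ => 0) hΩ hb hS.co hsk (u τ) (v τ) (hu2 τ hτ)
        (hL.inH τ (hsub τ hτ).1)).1
  have hgI : IntervalIntegrable g volume 0 t₁ := by
    have h1 : AEStronglyMeasurable g (volume.restrict (Icc 0 t₁)) := by
      have h2 : AEStronglyMeasurable (fun τ => ipr (v τ) (v τ) - 2 * ipr (u τ) (v τ) + E τ)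
          (volume.restrict (Icc 0 t₁)) := by
        refine (hvm.sub (huvm.const_mul 2)).add ?_
        exact ContinuousOn.aestronglyMeasurable (hEc.mono fun τ hτ => (hsub τ hτ).2)
            measurableSet_Icc
      refine h2.congr ?_
      filter_upwards [ae_restrict_mem measurableSet_Icc] with τ hτ
      rw [hgeq τ hτ]
    rw [intervalIntegrable_iff_integrableOn_Icc_of_le ht₁.1]
    refine Integrable.of_bound h1 (4 * E 0) ?_
    filter_upwards [ae_restrict_mem measurableSet_Icc] with τ hτ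
    rw [Real.norm_eq_abs, abs_of_nonneg (hg0 τ)]
    exact hgM τ hτ
  -- the inequality
  obtain ⟨K, hK⟩ := hS.der 1 t₁ ht₁T
  have hK0 : 0 ≤ K := (norm_nonneg _).trans (hK 0 hz 0)
  have hineq : ∀ τ ∈ Icc 0 t₁, g τ ≤ 2 * K * ∫ r in (0 : ℝ)..τ, g r := by
    intro τ hτ
    have hsubτ : uIcc 0 τ ⊆ uIcc 0 t₁ := by
      rw [uIcc_of_le hτ.1, uIcc_of_le ht₁.1]; exact Icc_subset_Icc_right hτ.2
    have i1 := (hGi.mono_set hsubτ).const_mul (2 * ν)
    have i2 := (hdI.mono_set hsubτ).const_mul (2 * ν)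
    have i3 := (hmI.mono_set hsubτ).const_mul 2
    have i4 := (hgI.mono_set hsubτ).const_mul (2 * K)
    have j1 := hduI.mono_set hsubτ
    have j2 := hdvI.mono_set hsubτ
    have h1 : g τ ≤ ∫ r in (0 : ℝ)..τ, (2 * m r - 2 * ν * gg (G r) - 2 * ν * d r) := by
      rw [intervalIntegral.integral_sub (i3.sub i1) i2, intervalIntegral.integral_sub i3 i1,
        intervalIntegral.integral_const_mul 2]
      have e1 := hgeq τ hτ
      have e2 := hmeq τ hτ
      have e3 := hEeq τ hτ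
      have e4 := hve τ hτ
      have e5 : ∫ r in (0 : ℝ)..τ, (du r + dv r) =
          (∫ r in (0 : ℝ)..τ, du r) + ∫ r in (0 : ℝ)..τ, dv r :=
        intervalIntegral.integral_add j1 j2
      have e6 : ∫ r in (0 : ℝ)..τ, 2 * (ν * d r + du r) =
          (∫ r in (0 : ℝ)..τ, 2 * ν * d r) + 2 * ∫ r in (0 : ℝ)..τ, du r := by
        rw [← intervalIntegral.integral_const_mul,
          ← intervalIntegral.integral_add i2 (j1.const_mul 2)]
        refine intervalIntegral.integral_congr fun r _ => ?_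
        ring
      have e7 : ∫ r in (0 : ℝ)..τ, 2 * (ν * gg (G r) + dv r) =
          (∫ r in (0 : ℝ)..τ, 2 * ν * gg (G r)) + 2 * ∫ r in (0 : ℝ)..τ, dv r := by
        rw [← intervalIntegral.integral_const_mul 2,
          ← intervalIntegral.integral_add i1 (j2.const_mul 2)]
        refine intervalIntegral.integral_congr fun r _ => ?_
        ring
      rw [e5] at e2
      rw [e6] at e3
      rw [e7] at e4
      linarith
    refine h1.trans ?_
    rw [← intervalIntegral.integral_const_mul]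
    refine intervalIntegral.integral_mono_ae_restrict hτ.1 ((i3.sub i1).sub i2) i4 ?_
    have hae : ∀ᵐ r ∂(volume.restrict (Icc 0 τ)), r ∈ Ioo 0 τ := by
      rw [← restrict_Ioo_eq_restrict_Icc]
      exact ae_restrict_mem measurableSet_Ioo
    have hgr : ∀ᵐ r ∂(volume.restrict (Icc 0 τ)), H1w Ω (v r) (G r) := by
      rw [← restrict_Ioo_eq_restrict_Icc]
      exact ae_restrict_of_ae_restrict_of_subset
        (Ioo_subset_Ioo_right (hτ.2.trans ht₁.2)) hL.grad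
    filter_upwards [hae, hgr] with r hr hH
    have hr1 : r ∈ Icc 0 t₁ := ⟨hr.1.le, hr.2.le.trans hτ.2⟩
    have hrT := (hsub r hr1).2
    have hsm := hS.smooth r hrT
    have h2 := h6 Ω (v r) (u r) (G r) ν K hΩ hb hν hH hsm (hS.sol.zero r hrT)
      (dvg_zero (hsm.of_le (by
        change ((1 : ℕ∞) : WithTop ℕ∞) ≤ ((⊤ : ℕ∞) : WithTop ℕ∞)
        exact_mod_cast le_top)) (hS.sol.zero r hrT) (hS.sol.dv r hrT))
      (fun x => by
        have := hK r hr1 x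
        rwa [norm_iteratedFDeriv_one] at this)
    rw [hm, hd, hgd]
    simp only
    linarith
  have hfin := hg t₁ (2 * K) (4 * E 0) g ht₁.1 (by positivity) hgI
    (fun τ hτ => ⟨hg0 τ, hgM τ hτ⟩) hineq t₁ ⟨ht₁.1, le_rfl⟩
  rw [hgd] at hfin
  exact ae_of_ipr (hv2 t₁ ⟨ht₁.1, le_rfl⟩) (hu2 t₁ ⟨ht₁.1, le_rfl⟩) hfin

end Pool.Agent.Y889.ED
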